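import Pool.Agent.Helper66.QJ.Internal

/-!
# Invariant continua through the critical point, general form (MP_a03adf_an)

`zero_mem_of_sym`: a symmetric continuum in the filled Julia set contains `0` if `0` is in the Julia set.
`dec_of_invariant_gen`: `X ⊆ J` a continuum with `0 ∈ X`, `f X = X` and `X ∩ -X ⊆ Y ⊆ X` for a continuum `Y` which is disjoint
from `f Y`; then `J` is decomposable (if at most one fixed point is in `J`).
`dec_of_tame`: the case where a continuous map with connected fibres semiconjugates `f` on `X` to a nontrivial rotation.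
-/

set_option autoImplicit false

open Set Topology Metric Bornology Filter

namespace Pool.Agent.Helper83.QJ

open Pool.Agent.Helper66.QJ

variable {c : ℂ}

/-- a symmetric continuum in the filled Julia set contains `0` -/
theorem zero_mem_of_sym (h0 : (0 : ℂ) ∈ J c) {D : Set ℂ} (hD : IsCompact D) (hDc : IsPreconnected D) (hDK : D ⊆ K c)
    (hne : D.Nonempty) (hs : ∀ z ∈ D, -z ∈ D) : (0 : ℂ) ∈ D := by
  by_contra h0D
  obtain ⟨T, hT, hTc, hTu, h0T, hTD⟩ := exists_tail h0 hD.isClosed hDK h0D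
  have hT2 : IsClosed ((fun z : ℂ => z ^ 2) '' T) := isClosedMap_pow ℂ 2 _ hT
  have hTc2 : IsPreconnected ((fun z : ℂ => z ^ 2) '' T) := hTc.image _ (by fun_prop)
  have hTu2 : ¬ IsBounded ((fun z : ℂ => z ^ 2) '' T) := by
    intro hb
    obtain ⟨C, hC⟩ := hb.exists_norm_le
    apply hTu
    rw [isBounded_iff_forall_norm_le]
    refine ⟨C + 1, fun z hz => ?_⟩
    have h1 := hC _ ⟨z, hz, rfl⟩
    simp only [norm_pow] at h1
    nlinarith [norm_nonneg z, sq_nonneg (‖z‖ - 1)]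
  have hQ : IsCompact ((fun z : ℂ => z ^ 2) '' D) := hD.image (by fun_prop)
  have hd : Disjoint ((fun z : ℂ => z ^ 2) '' D) ((fun z : ℂ => z ^ 2) '' T) := by
    rw [Set.disjoint_left]
    rintro _ ⟨z, hz, rfl⟩ ⟨g, hg, hgt⟩
    rcases sq_eq_sq_iff_eq_or_eq_neg.1 hgt with h | h
    · exact disjoint_left.1 hTD hg (h ▸ hz)
    · exact disjoint_left.1 hTD hg (h ▸ hs z hz)
  obtain ⟨r, hr, hr'⟩ := exists_sqrt hT2 hTc2 hTu2 (a := 0) ⟨0, h0T, by norm_num⟩ hQ hd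
  have hr2 : ContinuousOn (fun z => r (z ^ 2)) D := hr.comp (by fun_prop) fun z hz => ⟨z, hz, rfl⟩
  have hz0 : ∀ z ∈ D, z ≠ 0 := fun z hz h => h0D (h ▸ hz)
  obtain ⟨x, hx⟩ := hne
  rcases hDc.eq_or_eq_neg_of_sq_eq (f := fun z => r (z ^ 2)) (g := fun z => z) hr2 continuousOn_id (fun z hz => by
      have h2 := hr' (z ^ 2) ⟨z, hz, rfl⟩
      simpa using h2) (fun {z} hz => hz0 z hz) with h1 | h1
  · have h2 : r (x ^ 2) = x := h1 hx
    have h3 : r ((-x) ^ 2) = -x := h1 (hs x hx)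
    rw [neg_sq, h2] at h3
    exact hz0 x hx (self_eq_neg.1 h3)
  · have h2 : r (x ^ 2) = -x := h1 hx
    have h3 : r ((-x) ^ 2) = - -x := h1 (hs x hx)
    rw [neg_sq, h2, neg_neg] at h3
    exact hz0 x hx (neg_eq_self.1 h3)

theorem dec_of_invariant_gen {X Y : Set ℂ} (hX : IsCompact X) (hXc : IsPreconnected X) (hXJ : X ⊆ J c)
    (h0 : (0 : ℂ) ∈ X) (hfX : f c '' X = X) (hY : IsCompact Y) (hYc : IsPreconnected Y) (hYX : Y ⊆ X)
    (hXY : ∀ y ∈ X, -y ∈ X → y ∈ Y) (hYf : ∀ y ∈ Y, f c y ∉ Y)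
    (huniq : ∀ a b : ℂ, a ∈ J c → b ∈ J c → f c a = a → f c b = b → a = b) : Dec (J c) := by
  have hfm : ∀ x ∈ X, f c x ∈ X := fun x hx => hfX ▸ mem_image_of_mem _ hx
  have hcX : c ∈ X := f_zero c ▸ hfm 0 h0
  have h0Y : (0 : ℂ) ∈ Y := hXY 0 h0 (by rwa [neg_zero])
  have hcY : c ∉ Y := by
    have h1 := hYf 0 h0Y
    rwa [f_zero] at h1
  have hcX' : -c ∉ X := fun h => hcY (hXY c hcX h)
  have hXn : X ≠ J c := fun heq => hcX' (heq.symm ▸ neg_mem_J (hXJ hcX))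
  -- the symmetric copy
  let X1 : Set ℂ := (fun z => -z) '' X
  have hX1 : IsCompact X1 := hX.image continuous_neg
  have hX1c : IsPreconnected X1 := hXc.image _ continuous_neg.continuousOn
  have hX1m : ∀ z, z ∈ X1 ↔ -z ∈ X := fun z =>
    ⟨by rintro ⟨x, hx, rfl⟩; rwa [neg_neg], fun h => ⟨-z, h, neg_neg z⟩⟩
  have hX1J : X1 ⊆ J c := by
    rintro _ ⟨x, hx, rfl⟩
    exact neg_mem_J (hXJ hx)
  have h01 : (0 : ℂ) ∈ X1 := (hX1m 0).2 (by rwa [neg_zero])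
  have hcX1 : c ∉ X1 := fun h => hcX' ((hX1m c).1 h)
  have hpre : ∀ z, f c z ∈ X → z ∈ X ∨ z ∈ X1 := by
    intro z hz
    rw [← hfX] at hz
    obtain ⟨x, hx, hxz⟩ := hz
    rcases f_eq_iff.1 hxz with h | h
    · exact Or.inl (h ▸ hx)
    · refine Or.inr ((hX1m z).2 ?_)
      rw [← h]
      exact hx
  have hpq : ∀ p, p ∈ X → p ∈ X1 → f c p ∉ Y := fun p h1 h2 => hYf p (hXY p h1 ((hX1m p).1 h2))
  -- a section which maps `Y` outside `X`
  obtain ⟨s, hs, hfs, hsY⟩ : ∃ s : ℂ → ℂ, ContinuousOn s X1 ∧ (∀ z ∈ X1, f c (s z) = z) ∧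
      ∀ z, z ∈ X → z ∈ X1 → s z ∉ X := by
    obtain ⟨T, hT, hTc, hTu, hcT, hTX⟩ := exists_tail (hXJ hcX) (A := X1 ∪ Y) (hX1.isClosed.union hY.isClosed)
      (union_subset (hX1J.trans (J_sub_K c)) (hYX.trans (hXJ.trans (J_sub_K c)))) (fun h => h.elim hcX1 hcY)
    obtain ⟨r, hr, hr2⟩ := exists_sqrt hT hTc hTu hcT (hX1.union hY) hTX.symm
    have hfr : ∀ z ∈ X1 ∪ Y, f c (r z) = z := fun z hz => by
      rw [f, hr2 z hz]
      ring
    have himg : IsPreconnected (r '' Y) := hYc.image _ (hr.mono subset_union_right)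
    have hor : (∀ z ∈ Y, r z ∉ X) ∨ ∀ z ∈ Y, r z ∉ X1 := by
      by_contra hcon
      push Not at hcon
      obtain ⟨⟨u, hu, huX⟩, v, hv, hvX⟩ := hcon
      obtain ⟨p, ⟨z, hz, hzp⟩, hpX, hpX1⟩ := (isPreconnected_closed_iff.1 himg) X X1 hX.isClosed hX1.isClosed (by
        rintro _ ⟨z, hz, rfl⟩
        exact hpre _ (by
          rw [hfr z (Or.inr hz)]
          exact hYX hz)) ⟨_, ⟨u, hu, rfl⟩, huX⟩ ⟨_, ⟨v, hv, rfl⟩, hvX⟩
      have h1 := hpq p hpX hpX1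
      rw [← hzp, hfr z (Or.inr hz)] at h1
      exact h1 hz
    have hmem : ∀ z, z ∈ X → z ∈ X1 → z ∈ Y := fun z h1 h2 => hXY z h1 ((hX1m z).1 h2)
    rcases hor with hor | hor
    · exact ⟨r, hr.mono subset_union_left, fun z hz => hfr z (Or.inl hz), fun z h1 h2 => hor z (hmem z h1 h2)⟩
    · refine ⟨fun z => -r z, (hr.mono subset_union_left).neg, fun z hz => by rw [f_neg, hfr z (Or.inl hz)],
        fun z h1 h2 h3 => ?_⟩
      exact hor z (hmem z h1 h2) ((hX1m _).2 h3)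
  have hs0 : s 0 ∈ X1 := by
    rcases hpre (s 0) (by rw [hfs 0 h01]; exact h0) with h | h
    · exact absurd h (hsY 0 h0 h01)
    · exact h
  refine dec_of_wanderer (L := s '' X1) hX hXc hXJ hXn h0 hfm (hX1.image_of_continuousOn hs) (hX1c.image _ hs) ?_ ?_
    (q0 := s (s 0)) ⟨s 0, hs0, rfl⟩ ?_ (n := 1) (y := s 0) ⟨0, h01, rfl⟩ ?_ huniq
  · rintro _ ⟨z, hz, rfl⟩
    exact f_mem_J_iff.1 (by
      rw [hfs z hz]
      exact hX1J hz)
  · rintro _ ⟨z, hz, rfl⟩ hX'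
    have h1 := hfm _ hX'
    rw [hfs z hz] at h1
    exact hsY z h1 hz hX'
  · rw [hfs _ hs0]
    exact ⟨0, h01, rfl⟩
  · show f c (s 0) ∈ X
    rw [hfs 0 h01]
    exact h0

/-- the tame case: `f` on `X` is semiconjugate to a rotation `t ↦ a t`, `a ≠ 1`, by a map `π` with connected fibres -/
theorem dec_of_tame {X : Set ℂ} (hX : IsCompact X) (hXc : IsPreconnected X) (hXJ : X ⊆ J c)
    (h0 : (0 : ℂ) ∈ X) (hfX : f c '' X = X) {π : ℂ → ℂ} (hπ : ContinuousOn π X) (hπ0 : ∀ x ∈ X, π x ≠ 0) {a : ℂ}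
    (ha : a ≠ 1) (hrot : ∀ x ∈ X, π (f c x) = a * π x) (hfib : ∀ t : ℂ, IsPreconnected {x | x ∈ X ∧ π x = t})
    (huniq : ∀ a b : ℂ, a ∈ J c → b ∈ J c → f c a = a → f c b = b → a = b) : Dec (J c) := by
  have hfm : ∀ x ∈ X, f c x ∈ X := fun x hx => hfX ▸ mem_image_of_mem _ hx
  have ha0 : a ≠ 0 := by
    rintro rfl
    exact hπ0 _ (hfm 0 h0) (by rw [hrot 0 h0, zero_mul])
  have hclosed : ∀ t : ℂ, IsClosed {x | x ∈ X ∧ π x = t} := fun t =>
    (hπ.preimage_isClosed_of_isClosed hX.isClosed (isClosed_singleton (x := t)))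
  have hcomp : ∀ t : ℂ, IsCompact {x | x ∈ X ∧ π x = t} := fun t =>
    hX.of_isClosed_subset (hclosed t) fun x hx => hx.1
  refine dec_of_invariant_gen (Y := {x | x ∈ X ∧ π x = π 0}) hX hXc hXJ h0 hfX (hcomp _) (hfib _) (fun x hx => hx.1)
    ?_ ?_ huniq
  · intro y hy hy'
    refine ⟨hy, ?_⟩
    have h1 : π (-y) = π y := by
      have h2 := hrot (-y) hy'
      rw [f_neg, hrot y hy] at h2
      exact (mul_left_cancel₀ ha0 h2).symm
    -- the fibre of `y` and its symmetric copy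
    set F : Set ℂ := {x | x ∈ X ∧ π x = π y} with hF
    have hyF : y ∈ F := ⟨hy, rfl⟩
    have hyF' : -y ∈ F := ⟨hy', h1⟩
    have hFJ : F ⊆ J c := fun x hx => hXJ hx.1
    have hnF : (fun z : ℂ => -z) '' F ⊆ J c := by
      rintro _ ⟨x, hx, rfl⟩
      exact neg_mem_J (hFJ hx)
    have h3 : (0 : ℂ) ∈ F ∪ (fun z : ℂ => -z) '' F := by
      refine zero_mem_of_sym (hXJ h0) ((hcomp _).union ((hcomp _).image continuous_neg))
        ((hfib _).union y hyF ⟨-y, hyF', neg_neg y⟩ ((hfib _).image _ continuous_neg.continuousOn))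
        ((union_subset hFJ hnF).trans (J_sub_K c)) ⟨y, Or.inl hyF⟩ ?_
      rintro z (hz | ⟨x, hx, rfl⟩)
      · exact Or.inr ⟨z, hz, rfl⟩
      · exact Or.inl (by rwa [neg_neg])
    have h4 : (0 : ℂ) ∈ F := by
      rcases h3 with h3 | ⟨x, hx, hx0⟩
      · exact h3
      · have : x = 0 := neg_eq_zero.1 hx0
        rwa [this] at hx
    exact h4.2.symm
  · rintro y ⟨hy, hy0⟩ ⟨-, h2⟩
    rw [hrot y hy, hy0] at h2
    exact ha (mul_right_cancel₀ (hπ0 0 h0) (by rw [h2, one_mul]))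

end Pool.Agent.Helper83.QJ
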